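import Pool.Agent.N928.EA.Stm

/-!
# EA/GAU: law of the gauge transformed couplings (helper999, for helper928)
-/

set_option autoImplicit false

open MeasureTheory

namespace Pool.Agent.N999.EA

open Pool.Agent.N928.EA

/-- the fair coin -/
noncomputable abbrev coin : Measure Bool := (PMF.uniformOfFintype Bool).toMeasure

theorem coin_not (T : Set Bool) : coin (Bool.not ⁻¹' T) = coin T := by
  classical
  rw [PMF.toMeasure_uniformOfFintype_apply _ (Set.toFinite _).measurableSet,
    PMF.toMeasure_uniformOfFintype_apply _ (Set.toFinite _).measurableSet]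
  congr 2
  refine Fintype.card_congr ⟨fun x => ⟨!x.1, x.2⟩, fun x => ⟨!x.1, ?_⟩, fun x => ?_, fun x => ?_⟩
  · have := x.2
    simpa using this
  · simp
  · simp

/-- flip of one coordinate -/
def flip1 {ι : Type} [DecidableEq ι] (q : ι) (x : ι → Bool) : ι → Bool :=
  fun i => if i = q then !(x i) else x i

theorem flip1_meas {ι : Type} [DecidableEq ι] (q : ι) : Measurable (flip1 q) := by
  refine measurable_pi_iff.2 fun i => ?_
  unfold flip1
  by_cases h : i = q
  · simp only [if_pos h]
    exact (measurable_of_countable Bool.not).comp (measurable_pi_apply i)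
  · simp only [if_neg h]
    exact measurable_pi_apply i

theorem flip1_unif {ι : Type} [DecidableEq ι] (q : ι) : (unif ι).map (flip1 q) = unif ι := by
  unfold unif
  refine Measure.eq_infinitePi _ fun s t ht => ?_
  rw [Measure.map_apply (flip1_meas q) (MeasurableSet.pi s.countable_toSet fun i _ => ht i)]
  have h1 : flip1 q ⁻¹' (Set.pi (s : Set ι) t) =
      Set.pi (s : Set ι) fun i => if i = q then Bool.not ⁻¹' (t i) else t i := by
    ext x
    simp only [Set.mem_preimage, Set.mem_pi, flip1]
    refine forall_congr' fun i => imp_congr_right fun _ => ?_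
    by_cases h : i = q
    · simp [h]
    · simp [h]
  rw [h1, Measure.infinitePi_pi]
  · refine Finset.prod_congr rfl fun i _ => ?_
    by_cases h : i = q
    · simp only [if_pos h]
      exact coin_not _
    · simp only [if_neg h]
  · intro i _
    exact (Set.toFinite _).measurableSet

theorem coin_single (b : Bool) : coin {b} = 2⁻¹ := by
  rw [PMF.toMeasure_apply_singleton _ _ (MeasurableSet.singleton b), PMF.uniformOfFintype_apply]
  simp

/-- a probability law invariant under all flips is the law of independent fair coins -/
theorem eq_unif {κ : Type} [DecidableEq κ] (ν : Measure (κ → Bool)) [IsProbabilityMeasure ν]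
    (h : ∀ p, ν.map (flip1 p) = ν) : ν = unif κ := by
  unfold unif
  refine Measure.eq_infinitePi _ fun s t _ => ?_
  induction s using Finset.induction_on with
  | empty => simp
  | insert p s hp ih =>
    rw [Finset.prod_insert hp, ← ih]
    obtain ⟨A, hA⟩ : ∃ A : Set (κ → Bool), A = Set.pi (s : Set κ) t := ⟨_, rfl⟩
    have hAm : MeasurableSet A := by
      rw [hA]
      exact MeasurableSet.pi s.countable_toSet fun i _ => (Set.toFinite _).measurableSet
    have hA' : flip1 p ⁻¹' A = A := by
      rw [hA]
      ext x
      simp only [Set.mem_preimage, Set.mem_pi, flip1]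
      refine forall_congr' fun i => imp_congr_right fun hi => ?_
      have : i ≠ p := by
        rintro rfl
        exact hp hi
      rw [if_neg this]
    have hm : ∀ b : Bool, MeasurableSet {x : κ → Bool | x p = b} := fun b =>
      (measurable_pi_apply (X := fun _ : κ => Bool) p) (MeasurableSet.singleton b)
    have hpi : (Set.pi ((insert p s : Finset κ) : Set κ) t) = {x | x p ∈ t p} ∩ A := by
      rw [hA]
      ext x
      simp
    have htf : ν ({x | x p = true} ∩ A) = ν ({x | x p = false} ∩ A) := by
      conv_lhs => rw [← h p]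
      rw [Measure.map_apply (flip1_meas p) ((hm true).inter hAm), Set.preimage_inter, hA']
      congr 2
      ext x
      simp [flip1]
    have hsum : ν ({x | x p = true} ∩ A) + ν ({x | x p = false} ∩ A) = ν A := by
      rw [← measure_union _ ((hm false).inter hAm), ← Set.union_inter_distrib_right]
      · congr 1
        ext x
        simp
      · refine Set.disjoint_left.2 fun x hx hy => ?_
        have h1 : x p = true := hx.1
        have h2 : x p = false := hy.1
        rw [h1] at h2
        exact absurd h2 (by decide)
    have hhalf : ∀ b : Bool, ν ({x | x p = b} ∩ A) = 2⁻¹ * ν A := by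
      have h1 : ν ({x | x p = true} ∩ A) = 2⁻¹ * ν A := by
        rw [← hsum, ← htf, ← two_mul, ← mul_assoc, ENNReal.inv_mul_cancel (by norm_num) (by norm_num),
          one_mul]
      intro b
      cases b
      · rw [← htf, h1]
      · exact h1
    rw [← hA, hpi]
    by_cases h1 : true ∈ t p
    · by_cases h2 : false ∈ t p
      · have e1 : t p = Set.univ := by
          ext b
          cases b <;> simp [h1, h2]
        rw [e1]
        simp only [Set.mem_univ, Set.setOf_true, Set.univ_inter]
        rw [measure_univ, one_mul]
      · have e1 : t p = {true} := by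
          ext b
          cases b <;> simp [h1, h2]
        rw [e1, coin_single]
        exact hhalf true
    · by_cases h2 : false ∈ t p
      · have e1 : t p = {false} := by
          ext b
          cases b <;> simp [h1, h2]
        rw [e1, coin_single]
        exact hhalf false
      · have e1 : t p = ∅ := by
          ext b
          cases b <;> simp [h1, h2]
        rw [e1]
        simp

theorem map_unif {ι κ : Type} [DecidableEq ι] [DecidableEq κ] (c : κ → ι)
    (f : (ι → Bool) → (κ → Bool)) (hf : Measurable f)
    (hflip : ∀ p J, f (flip1 (c p) J) = flip1 p (f J)) : (unif ι).map f = unif κ := by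
  haveI : IsProbabilityMeasure ((unif ι).map f) := Measure.isProbabilityMeasure_map hf.aemeasurable
  refine eq_unif _ fun p => ?_
  rw [Measure.map_map (flip1_meas p) hf]
  have h1 : flip1 p ∘ f = f ∘ flip1 (c p) := by
    funext J
    exact (hflip p J).symm
  rw [h1, ← Measure.map_map hf (flip1_meas _), flip1_unif]

section gauge

variable {k : ℕ} {W : Type} {H : SimpleGraph W}

theorem beq_meas {α : Type} [MeasurableSpace α] {f g : α → Bool} (hf : Measurable f)
    (hg : Measurable g) : Measurable fun x => (f x == g x) :=
  (measurable_of_countable (fun p : Bool × Bool => (p.1 == p.2))).comp (hf.prodMk hg)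

theorem gau_meas (t : List (Fin k)) (h : W) :
    Measurable fun J : Coupling (PG k H) => gau J t h := by
  induction t with
  | nil => exact measurable_const
  | cons i t ih => exact beq_meas (measurable_pi_apply _) ih

theorem YY_meas : Measurable (YY : Coupling (PG k H) → (List (Fin k) × H.edgeSet → Bool)) := by
  refine measurable_pi_iff.2 fun p => ?_
  refine beq_meas (measurable_pi_apply _) ?_
  obtain ⟨t, e, he⟩ := p
  induction e using Sym2.ind with
  | _ h h' => exact beq_meas (gau_meas t h) (gau_meas t h')

/-- the copy of the edge of `H` -/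
def cp (p : List (Fin k) × H.edgeSet) : (PG k H).edgeSet :=
  ⟨Sym2.map (fun h => (p.1, h)) p.2.1, map_mem p.1 p.2.2⟩

theorem cp_inj : Function.Injective (cp : List (Fin k) × H.edgeSet → (PG k H).edgeSet) := by
  rintro ⟨t, e, he⟩ ⟨t', e', he'⟩ h
  have h1 : Sym2.map (fun h => (t, h)) e = Sym2.map (fun h => (t', h)) e' := congrArg Subtype.val h
  have ht : t = t' := by
    induction e using Sym2.ind with
    | _ a b =>
      have h2 : (t, a) ∈ Sym2.map (fun h => (t', h)) e' := by
        rw [← h1]
        exact Sym2.mem_map.2 ⟨a, Sym2.mem_mk_left a b, rfl⟩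
      obtain ⟨x, _, hx⟩ := Sym2.mem_map.1 h2
      exact (congrArg Prod.fst hx).symm
  subst ht
  have he2 : e = e' := Sym2.map.injective (fun x y hxy => congrArg Prod.snd hxy) h1
  subst he2
  rfl

theorem tree_ne (p : List (Fin k) × H.edgeSet) (i : Fin k) (t : List (Fin k)) (h : W) :
    (⟨s((t, h), (i :: t, h)), adj_tree H i t h⟩ : (PG k H).edgeSet) ≠ cp p := by
  intro h0
  have h1 : s((t, h), (i :: t, h)) = Sym2.map (fun h => (p.1, h)) p.2.1 := congrArg Subtype.val h0
  have h2 : (t, h) ∈ Sym2.map (fun h => (p.1, h)) p.2.1 := by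
    rw [← h1]
    exact Sym2.mem_mk_left _ _
  have h3 : (i :: t, h) ∈ Sym2.map (fun h => (p.1, h)) p.2.1 := by
    rw [← h1]
    exact Sym2.mem_mk_right _ _
  obtain ⟨x, _, hx⟩ := Sym2.mem_map.1 h2
  obtain ⟨y, _, hy⟩ := Sym2.mem_map.1 h3
  have h4 : p.1 = t := congrArg Prod.fst hx
  have h5 : p.1 = i :: t := congrArg Prod.fst hy
  have h6 := congrArg List.length (h4.symm.trans h5)
  simp at h6

theorem gau_flip [DecidableEq (PG k H).edgeSet] (p : List (Fin k) × H.edgeSet)
    (J : Coupling (PG k H)) (t : List (Fin k)) (h : W) :
    gau (flip1 (cp p) J) t h = gau J t h := by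
  induction t with
  | nil => rfl
  | cons i t ih =>
    show (flip1 (cp p) J ⟨s((t, h), (i :: t, h)), adj_tree H i t h⟩ == gau (flip1 (cp p) J) t h) =
      (J ⟨s((t, h), (i :: t, h)), adj_tree H i t h⟩ == gau J t h)
    rw [ih]
    unfold flip1
    rw [if_neg (tree_ne p i t h)]

theorem YY_flip [DecidableEq (PG k H).edgeSet] [DecidableEq (List (Fin k) × H.edgeSet)]
    (p : List (Fin k) × H.edgeSet) (J : Coupling (PG k H)) :
    YY (flip1 (cp p) J) = flip1 p (YY J) := by
  funext q
  have h1 : YY (flip1 (cp p) J) q = (flip1 (cp p) J (cp q) ==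
      Sym2.lift ⟨fun h h' => (gau J q.1 h == gau J q.1 h'), fun h h' => by
      show (gau J q.1 h == gau J q.1 h') = (gau J q.1 h' == gau J q.1 h)
      cases gau J q.1 h <;> cases gau J q.1 h' <;> rfl⟩ q.2.1) := by
    unfold YY
    simp only [gau_flip]
    rfl
  have h2 : YY J q = (J (cp q) ==
      Sym2.lift ⟨fun h h' => (gau J q.1 h == gau J q.1 h'), fun h h' => by
      show (gau J q.1 h == gau J q.1 h') = (gau J q.1 h' == gau J q.1 h)
      cases gau J q.1 h <;> cases gau J q.1 h' <;> rfl⟩ q.2.1) := rfl
  rw [h1]
  unfold flip1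
  rw [h2]
  by_cases hqp : q = p
  · subst hqp
    rw [if_pos rfl, if_pos rfl]
    generalize J (cp q) = u
    generalize Sym2.lift _ q.2.1 = v
    cases u <;> cases v <;> rfl
  · rw [if_neg (fun h => hqp (cp_inj h)), if_neg hqp]

end gauge

theorem t_GAU : St_GAU := by
  classical
  intro k W _ H
  exact ⟨YY_meas, map_unif cp YY YY_meas YY_flip⟩

end Pool.Agent.N999.EA
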